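import Pool.Agent.Helper70.ML.St

/-!
# Project ML (MP_a2f62e_al), module SOL: groups of odd order with the hypothesis are solvable
-/

set_option autoImplicit false

namespace Pool.Agent.Helper84.ML

open Pool.Agent.Helper70.ML
open Pool.Agent.Helper75.MX
open scoped commutatorElement Nat

/-- the order of an alternating group of degree at least five is even -/
theorem even_alt (n : ℕ) (hn : 5 ≤ n) : Even (Nat.card (alternatingGroup (Fin n))) := by
  haveI : Nontrivial (Fin n) := Fin.nontrivial_iff_two_le.2 (by omega)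
  have h := two_mul_nat_card_alternatingGroup (α := Fin n)
  rw [Nat.card_perm, Nat.card_fin] at h
  have h4 : 4 ∣ n ! := (by decide : 4 ∣ 5 !).trans (Nat.factorial_dvd_factorial hn)
  obtain ⟨c, hc⟩ := h4
  rw [hc] at h
  exact ⟨c, by omega⟩

/-- a maximal proper normal subgroup has a simple quotient -/
theorem simple_quot {G : Type} [Group G] (N : Subgroup G) [N.Normal] (hN : N ≠ ⊤)
    (hmax : ∀ M : Subgroup G, M.Normal → N ≤ M → M ≠ ⊤ → M = N) : IsSimpleGroup (G ⧸ N) := by
  haveI : Nontrivial (G ⧸ N) := QuotientGroup.nontrivial_iff.2 hN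
  refine ⟨fun H hH => ?_⟩
  by_cases hT : H = ⊤
  · exact Or.inr hT
  · left
    have hle : N ≤ H.comap (QuotientGroup.mk' N) := by
      intro x hx
      rw [Subgroup.mem_comap]
      have : QuotientGroup.mk' N x = 1 := by
        rw [QuotientGroup.mk'_apply]
        exact (QuotientGroup.eq_one_iff x).2 hx
      rw [this]
      exact H.one_mem
    have hsurj : Function.Surjective (QuotientGroup.mk' N) := QuotientGroup.mk'_surjective N
    have hne : H.comap (QuotientGroup.mk' N) ≠ ⊤ := by
      intro h
      apply hT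
      rw [eq_top_iff]
      intro y _
      obtain ⟨x, rfl⟩ := hsurj y
      have : x ∈ H.comap (QuotientGroup.mk' N) := by rw [h]; trivial
      exact this
    have heq := hmax _ (hH.comap _) hle hne
    rw [eq_bot_iff]
    intro y hy
    obtain ⟨x, rfl⟩ := hsurj y
    have hx : x ∈ H.comap (QuotientGroup.mk' N) := hy
    rw [heq] at hx
    rw [Subgroup.mem_bot, QuotientGroup.mk'_apply]
    exact (QuotientGroup.eq_one_iff x).2 hx

/-- a nonabelian simple group of odd order cannot satisfy the hypothesis -/
theorem simple_odd (hHYP : StHYP) (C : ℝ) (Q : Type) [Group Q] [Finite Q] (hs : IsSimpleGroup Q)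
    (hC : Hyp C Q) (hodd : Odd (Nat.card Q)) : Group.IsSolvable Q := by
  by_cases hcomm : ∀ a b : Q, a * b = b * a
  · exact Group.isSolvable_of_comm hcomm
  · exfalso
    have hcen : Subgroup.center Q = ⊥ := by
      rcases (inferInstance : (Subgroup.center Q).Normal).eq_bot_or_eq_top with h | h
      · exact h
      · exfalso
        apply hcomm
        intro a b
        have ha : a ∈ Subgroup.center Q := by rw [h]; trivial
        exact (Subgroup.mem_center_iff.1 ha b).symm
    have hder : commutator Q = ⊤ := by
      rcases (inferInstance : (commutator Q).Normal).eq_bot_or_eq_top with h | h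
      · exfalso
        rw [commutator_eq_bot_iff_center_eq_top] at h
        rw [hcen] at h
        exact (bot_ne_top : (⊥ : Subgroup Q) ≠ ⊤) h
      · exact h
    have e : (Q ⧸ Subgroup.center Q) ≃* Q :=
      (QuotientGroup.quotientMulEquivOfEq hcen).trans QuotientGroup.quotientBot
    have hQO : QO Q := by
      refine ⟨hder, e.isSimpleGroup, ?_⟩
      rw [hcen, Subgroup.card_bot]
      exact odd_one
    have hAlt : ¬ AltQ Q := by
      rintro ⟨n, hn, ⟨f⟩⟩
      have h1 : Nat.card Q = Nat.card (alternatingGroup (Fin n)) :=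
        Nat.card_congr (e.symm.trans f).toEquiv
      rw [h1] at hodd
      exact (Nat.not_even_iff_odd.2 hodd) (even_alt n hn)
    obtain ⟨k, hk, -⟩ := (hHYP C Q hC).2.2 hQO hAlt
    obtain ⟨m, -, hm⟩ := exists_isMixing hk
    have hTS := ts_of_mixable ⟨m, hm⟩
    have hbt : (⊥ : Subgroup Q) = ⊤ := by
      apply hTS ⊥ inferInstance
      rw [Subgroup.index_bot]
      exact hodd
    exact (bot_ne_top : (⊥ : Subgroup Q) ≠ ⊤) hbt

theorem sol_aux (hHYP : StHYP) (C : ℝ) : ∀ n : ℕ, ∀ (G : Type) [Group G] [Finite G],
    Nat.card G = n → Hyp C G → Odd (Nat.card G) → Group.IsSolvable G := by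
  intro n
  induction n using Nat.strong_induction_on with
  | _ n ih =>
    intro G _ _ hn hC hodd
    rcases subsingleton_or_nontrivial G with hsub | hnt
    · exact Group.isSolvable_of_comm (fun a b => Subsingleton.elim _ _)
    · classical
      -- maximal proper normal subgroup
      have hfin : Set.Finite {N : Subgroup G | N.Normal ∧ N ≠ ⊤} := Set.toFinite _
      have hne : {N : Subgroup G | N.Normal ∧ N ≠ ⊤}.Nonempty :=
        ⟨⊥, inferInstance, bot_ne_top⟩
      obtain ⟨N, hN⟩ := hfin.exists_maximal hne
      have hNn : N.Normal := hN.prop.1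
      have hNt : N ≠ ⊤ := hN.prop.2
      have hmax : ∀ M : Subgroup G, M.Normal → N ≤ M → M ≠ ⊤ → M = N := by
        intro M hM hle hMt
        exact le_antisymm (hN.2 ⟨hM, hMt⟩ hle) hle
      have hsim := simple_quot N hNt hmax
      have hcN : Nat.card N < Nat.card G := by
        apply lt_of_le_of_ne (Subgroup.card_le_card_group N)
        intro h
        exact hNt (Subgroup.eq_top_of_card_eq N h)
      have hdN : Nat.card N ∣ Nat.card G := Subgroup.card_subgroup_dvd_card N
      have hoddN : Odd (Nat.card N) := Odd.of_dvd_nat hodd hdN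
      have hsolN : Group.IsSolvable N :=
        ih (Nat.card N) (hn ▸ hcN) N rfl ((hHYP C G hC).1 N hNn) hoddN
      have hdQ : Nat.card (G ⧸ N) ∣ Nat.card G := Subgroup.card_quotient_dvd_card N
      have hoddQ : Odd (Nat.card (G ⧸ N)) := Odd.of_dvd_nat hodd hdQ
      have hsolQ : Group.IsSolvable (G ⧸ N) :=
        simple_odd hHYP C (G ⧸ N) hsim ((hHYP C G hC).2.1 N) hoddQ
      exact (Group.isSolvable_iff_subgroup_quotient N).2 ⟨hsolN, hsolQ⟩

theorem hSOL (hHYP : StHYP) : StSOL := fun C G _ _ hC hodd => sol_aux hHYP C _ G rfl hC hodd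

end Pool.Agent.Helper84.ML
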