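import Pool.Agent.Helper70.ML.St2

/-!
# Project ML (MP_a2f62e_al), module CNT: the order of the special linear group
-/

set_option autoImplicit false

namespace Pool.Agent.Helper84.ML

open Pool.Agent.Helper70.ML
open Pool.Agent.Helper75.MX
open scoped commutatorElement Nat

/-- `q ^ (j+2) - 1 ≥ (q-1)(q+1)` for `q = r + 1` -/
private theorem pow_ge_CNT (r j : ℕ) : r * (r + 2) ≤ (r + 1) ^ (j + 2) - 1 := by
  have h1 : (r + 1) ^ 2 ≤ (r + 1) ^ (j + 2) := Nat.pow_le_pow_right (by omega) (by omega)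
  have h2 : (r + 1) ^ 2 = r * (r + 2) + 1 := by ring
  omega

private theorem big_CNT (r : ℕ) (hr : 1 ≤ r) : ∀ m : ℕ,
    (m + 3) * (2 * r) ^ (m + 2) ≤ ∏ j ∈ Finset.range (m + 2), ((r + 1) ^ (j + 2) - 1) := by
  intro m
  induction m with
  | zero =>
    rw [Finset.prod_range_succ, Finset.prod_range_succ, Finset.prod_range_zero, one_mul]
    have h1 : (r + 1) ^ (0 + 2) - 1 = r * (r + 2) := by
      have : (r + 1) ^ (0 + 2) = r * (r + 2) + 1 := by ring
      omega
    have h2 : (r + 1) ^ (1 + 2) - 1 = r * (r ^ 2 + 3 * r + 3) := by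
      have : (r + 1) ^ (1 + 2) = r * (r ^ 2 + 3 * r + 3) + 1 := by ring
      omega
    rw [h1, h2]
    have h3 : 3 * 7 ≤ (r + 2) * (r ^ 2 + 3 * r + 3) :=
      Nat.mul_le_mul (by omega) (by nlinarith)
    calc (0 + 3) * (2 * r) ^ (0 + 2) = (r * r) * 12 := by ring
      _ ≤ (r * r) * ((r + 2) * (r ^ 2 + 3 * r + 3)) := by
          apply Nat.mul_le_mul_left
          omega
      _ = r * (r + 2) * (r * (r ^ 2 + 3 * r + 3)) := by ring
  | succ m ih =>
    rw [Finset.prod_range_succ]
    have h1 := pow_ge_CNT r (m + 2)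
    have h2 : (m + 4) * (2 * r) ≤ (m + 3) * (r * (r + 2)) := by
      have : (m + 4) * 2 ≤ (m + 3) * (r + 2) := by nlinarith
      calc (m + 4) * (2 * r) = (m + 4) * 2 * r := by ring
        _ ≤ (m + 3) * (r + 2) * r := Nat.mul_le_mul_right _ this
        _ = (m + 3) * (r * (r + 2)) := by ring
    calc (m + 1 + 3) * (2 * r) ^ (m + 1 + 2) = (2 * r) ^ (m + 2) * ((m + 4) * (2 * r)) := by ring
      _ ≤ (2 * r) ^ (m + 2) * ((m + 3) * (r * (r + 2))) := Nat.mul_le_mul_left _ h2
      _ = (m + 3) * (2 * r) ^ (m + 2) * (r * (r + 2)) := by ring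
      _ ≤ _ := Nat.mul_le_mul ih h1

/-- the elementary inequality -/
private theorem ineq_CNT (r c m : ℕ) (hr : 1 ≤ r) (hm : 1 ≤ m) (hc1 : c ≤ m + 1) (hc2 : c ≤ r) :
    c * (2 * r) ^ m ≤ ∏ j ∈ Finset.range m, ((r + 1) ^ (j + 2) - 1) := by
  match m, hm with
  | 1, _ =>
    rw [Finset.prod_range_one]
    have h1 : (r + 1) ^ (0 + 2) - 1 = r * (r + 2) := by
      have : (r + 1) ^ (0 + 2) = r * (r + 2) + 1 := by ring
      omega
    rw [h1, pow_one]
    calc c * (2 * r) = r * (2 * c) := by ring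
      _ ≤ r * (r + 2) := Nat.mul_le_mul_left _ (by omega)
  | m + 2, _ =>
    exact (Nat.mul_le_mul_right _ (by omega)).trans (big_CNT r hr m)

/-- the determinant is surjective -/
private theorem det_surj_CNT (n : ℕ) (hn : 1 ≤ n) (F : Type) [Field F] :
    Function.Surjective (Matrix.GeneralLinearGroup.det : GL (Fin n) F →* Fˣ) := by
  intro u
  let i0 : Fin n := ⟨0, hn⟩
  let A : Matrix (Fin n) (Fin n) F := Matrix.diagonal (Function.update (fun _ => (1 : F)) i0 (u : F))
  have hA : A.det = (u : F) := by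
    simp only [A]
    rw [Matrix.det_diagonal, Finset.prod_update_of_mem (Finset.mem_univ _)]
    simp
  refine ⟨Matrix.GeneralLinearGroup.mkOfDetNeZero A (by rw [hA]; exact u.ne_zero), ?_⟩
  apply Units.ext
  rw [Matrix.GeneralLinearGroup.val_det_apply]
  exact hA

private theorem card_SL_CNT (n : ℕ) (hn : 1 ≤ n) (F : Type) [Field F] [Finite F] :
    Nat.card (SLn n F) * (Nat.card F - 1) = ∏ i : Fin n, (Nat.card F ^ n - Nat.card F ^ (i : ℕ)) := by
  classical
  have := Fintype.ofFinite F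
  have h1 := Matrix.card_GL_field (𝔽 := F) n
  rw [← Nat.card_eq_fintype_card (α := F)] at h1
  rw [← h1]
  have h2 := (Matrix.GeneralLinearGroup.det : GL (Fin n) F →* Fˣ).ker.card_mul_index
  rw [Subgroup.index_ker, MonoidHom.range_eq_top.2 (det_surj_CNT n hn F), Subgroup.card_top,
    Nat.card_units] at h2
  rw [← h2]
  congr 1
  -- the special linear group is the kernel
  have h3 : (Matrix.SpecialLinearGroup.toGL : SLn n F →* GL (Fin n) F).range =
      (Matrix.GeneralLinearGroup.det : GL (Fin n) F →* Fˣ).ker := by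
    ext g
    rw [MonoidHom.mem_range, MonoidHom.mem_ker]
    constructor
    · rintro ⟨x, rfl⟩
      exact Matrix.SpecialLinearGroup.coeToGL_det x
    · intro hg
      have : (g : Matrix (Fin n) (Fin n) F).det = 1 := by
        rw [← Matrix.GeneralLinearGroup.val_det_apply, hg]
        rfl
      exact ⟨⟨g.1, this⟩, Units.ext rfl⟩
  rw [← h3]
  exact Nat.card_congr (MonoidHom.ofInjective Matrix.SpecialLinearGroup.toGL_injective).toEquiv

private theorem prod_CNT (q n : ℕ) : ∏ i : Fin n, (q ^ n - q ^ (i : ℕ)) =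
    q ^ (n * (n - 1) / 2) * ∏ j ∈ Finset.range n, (q ^ (j + 1) - 1) := by
  rw [Fin.prod_univ_eq_prod_range (fun i => q ^ n - q ^ i) n]
  have h1 : ∀ i ∈ Finset.range n, q ^ n - q ^ i = q ^ i * (q ^ (n - 1 - i + 1) - 1) := by
    intro i hi
    have hi' := Finset.mem_range.1 hi
    rw [Nat.mul_sub, mul_one, ← pow_add]
    congr 2
    omega
  rw [Finset.prod_congr rfl h1, Finset.prod_mul_distrib, Finset.prod_pow_eq_pow_sum,
    Finset.sum_range_id]
  congr 1
  exact Finset.prod_range_reflect (fun j => q ^ (j + 1) - 1) n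

theorem hCNT : StCNT := by
  intro n F _ _ hn
  classical
  have := Fintype.ofFinite F
  have hq : 2 ≤ Nat.card F := Finite.one_lt_card
  obtain ⟨r, hr⟩ : ∃ r, Nat.card F = r + 1 := ⟨Nat.card F - 1, by omega⟩
  have hr1 : 1 ≤ r := by omega
  have hS := card_SL_CNT n (by omega) F
  rw [prod_CNT, hr] at hS
  obtain ⟨m, rfl⟩ : ∃ m, n = m + 1 := ⟨n - 1, by omega⟩
  rw [Finset.prod_range_succ'] at hS
  simp only [zero_add, pow_one, Nat.add_sub_cancel] at hS
  have hS2 : Nat.card (SLn (m + 1) F) = (r + 1) ^ ((m + 1) * m / 2) *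
      ∏ j ∈ Finset.range m, ((r + 1) ^ (j + 1 + 1) - 1) := by
    apply Nat.eq_of_mul_eq_mul_right (show 0 < r by omega)
    rw [hS]
    ring
  -- the centre
  let e := Matrix.SpecialLinearGroup.center_equiv_rootsOfUnity' (R := F) (0 : Fin (m + 1))
  have hc0 : Nat.card (Subgroup.center (SLn (m + 1) F)) =
      Nat.card (rootsOfUnity (Fintype.card (Fin (m + 1))) F) := Nat.card_congr e.toEquiv
  have hc1 : Nat.card (Subgroup.center (SLn (m + 1) F)) ≤ m + 1 := by
    rw [hc0, Fintype.card_fin]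
    exact card_rootsOfUnity F (m + 1)
  have hc2 : Nat.card (Subgroup.center (SLn (m + 1) F)) ≤ r := by
    rw [hc0]
    have := Subgroup.card_le_card_group (rootsOfUnity (Fintype.card (Fin (m + 1))) F)
    rw [Nat.card_units, hr] at this
    simpa using this
  rw [hS2, hr]
  simp only [Nat.add_sub_cancel]
  have key := ineq_CNT r _ m hr1 (by omega) hc1 hc2
  calc _ ≤ (∏ j ∈ Finset.range m, ((r + 1) ^ (j + 2) - 1)) * (r + 1) ^ ((m + 1) * m / 2) :=
        Nat.mul_le_mul_right _ key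
    _ = _ := by ring

end Pool.Agent.Helper84.ML
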